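import Pool.Agent.NTW.StmtsA

set_option autoImplicit false

open Matrix Filter Topology

namespace Pool.Agent.NTW.H47

open Pool.Agent.PFS Pool.Agent.PFJ Pool.Agent.NTS Pool.Agent.NTW

theorem exc (hPBF : PbfStmt) (hZFF : ZffStmt) : ExcStmt := by
  classical
  intro n C Γ hC K w0 hw0
  have hP : PCone C := hC.toPCone
  let P : ℕ → Prop := fun N => ∃ (c : Fin K → Fin K → ℕ) (w : Fin K → V n),
    (∀ i j, c i j = c j i) ∧ (∀ i j, i ≠ j → 2 ≤ c i j) ∧ (∀ i, c i i = 0) ∧ TT C Γ c w ∧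
      ∑ i, ∑ j, c i j = N
  have hex : ∃ N, P N := by
    refine ⟨_, fun i j => if i = j then 0 else 2, w0, ?_, ?_, ?_, ⟨hw0, ?_⟩, rfl⟩
    · intro i j
      by_cases h : i = j
      · simp [h]
      · simp [h, Ne.symm h]
    · intro i j h
      simp [h]
    · intro i
      simp
    · intro i j h
      obtain ⟨_, h2, h3⟩ := hPBF n C hP K w0 hw0.1 i j h
      refine ⟨_, h2, ?_⟩
      rw [h3]
      simp [h]
  have hbd : ∀ N, P N → N ≤ K * (K * n) := by
    rintro N ⟨c, w, hs, h2, h0, hT, rfl⟩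
    have hc : ∀ i j, c i j ≤ n := by
      intro i j
      by_cases h : i = j
      · rw [h, h0]; exact Nat.zero_le _
      · obtain ⟨L, _, hL⟩ := hT.pb i j h
        refine hL.trans ((Submodule.finrank_le L).trans ?_)
        simp
    calc ∑ i, ∑ j, c i j ≤ ∑ _i : Fin K, ∑ _j : Fin K, n :=
          Finset.sum_le_sum fun i _ => Finset.sum_le_sum fun j _ => hc i j
      _ = K * (K * n) := by simp
  obtain ⟨N, hN, hmax⟩ : ∃ N, P N ∧ ∀ M, P M → M ≤ N := by
    obtain ⟨N0, h0⟩ := hex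
    exact ⟨Nat.findGreatest P (K * (K * n)), Nat.findGreatest_spec (hbd _ h0) h0,
      fun M hM => Nat.le_findGreatest (hbd _ hM) hM⟩
  obtain ⟨c, w, hs, h2, h0, hT, hsum⟩ := hN
  refine ⟨c, hs, h2, ⟨w, hT⟩, ?_⟩
  intro w' hT' i j hij
  obtain ⟨L, hL, hLc⟩ := hT'.pb i j hij
  have hle : c i j ≤ Module.finrank ℝ (Fs C (w' i) (w' j)) := by
    refine hLc.trans ?_
    exact Submodule.finrank_mono ((hPBF n C hP K w' hT'.pes.1 i j hij).1 L hL).2.1
  by_contra hne
  have hlt : c i j < Module.finrank ℝ (Fs C (w' i) (w' j)) := lt_of_le_of_ne hle (Ne.symm hne)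
  obtain ⟨w'', hw'', ⟨L'', hL'', hd⟩, htr⟩ := hZFF n C Γ hC K w' hT'.pes i j hij
  set d := Module.finrank ℝ (Fs C (w' i) (w' j)) with hdd
  let c' : Fin K → Fin K → ℕ := fun a b => if (a = i ∧ b = j) ∨ (a = j ∧ b = i) then d else c a b
  have hc' : ∀ a b, c a b ≤ c' a b := by
    intro a b
    simp only [c']
    split_ifs with h
    · rcases h with h | h
      · rw [h.1, h.2]; exact hlt.le
      · rw [h.1, h.2, hs j i]; exact hlt.le
    · exact le_refl _
  have hPN : P (∑ a, ∑ b, c' a b) := by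
    refine ⟨c', w'', ?_, ?_, ?_, ⟨hw'', ?_⟩, rfl⟩
    · intro a b
      simp only [c']
      by_cases h : (a = i ∧ b = j) ∨ (a = j ∧ b = i)
      · rw [if_pos h, if_pos]
        rcases h with h | h
        · exact Or.inr ⟨h.2, h.1⟩
        · exact Or.inl ⟨h.2, h.1⟩
      · rw [if_neg h, if_neg, hs a b]
        intro h'
        apply h
        rcases h' with h' | h'
        · exact Or.inr ⟨h'.2, h'.1⟩
        · exact Or.inl ⟨h'.2, h'.1⟩
    · intro a b hab
      exact (h2 a b hab).trans (hc' a b)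
    · intro a
      simp only [c']
      rw [if_neg, h0]
      rintro (h | h)
      · exact hij (h.1.symm.trans h.2)
      · exact hij (h.2.symm.trans h.1)
    · intro a b hab
      by_cases h : (a = i ∧ b = j) ∨ (a = j ∧ b = i)
      · have e : c' a b = d := by simp only [c']; rw [if_pos h]
        rw [e]
        rcases h with h | h
        · rw [h.1, h.2]
          exact ⟨L'', hL'', hd.ge⟩
        · rw [h.1, h.2]
          exact ⟨L'', ((hPBF n C hP K w'' hw''.1 i j hij).1 L'' hL'').2.2.2.1, hd.ge⟩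
      · have e : c' a b = c a b := by simp only [c']; rw [if_neg h]
        rw [e]
        obtain ⟨L1, hL1, hL1c⟩ := hT'.pb a b hab
        obtain ⟨L2, hL2, hL2c⟩ := htr a b hab L1 hL1
        exact ⟨L2, hL2, by rw [hL2c]; exact hL1c⟩
  have hbig : ∑ a, ∑ b, c a b < ∑ a, ∑ b, c' a b := by
    refine Finset.sum_lt_sum (fun a _ => Finset.sum_le_sum fun b _ => hc' a b)
      ⟨i, Finset.mem_univ _, ?_⟩
    refine Finset.sum_lt_sum (fun b _ => hc' i b) ⟨j, Finset.mem_univ _, ?_⟩
    have e : c' i j = d := if_pos (Or.inl ⟨rfl, rfl⟩)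
    rw [e]
    exact hlt
  have := hmax _ hPN
  omega

end Pool.Agent.NTW.H47
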