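import Pool.Agent.NTW.StmtsB

set_option autoImplicit false

open Matrix Filter Topology

namespace Pool.Agent.NTW.H47

open Pool.Agent.PFS Pool.Agent.PFJ Pool.Agent.NTS Pool.Agent.NTW

theorem hfb (hDCP : DcpStmt) (hTWP : TwpStmt) (hCNT : CntStmt) : HfbStmt := by
  classical
  intro n C Γ K c τ D v v' ν M k h hk
  have hinv := D.toTau.inv
  have hd := hDCP n C Γ K c τ D v' h.tv'
  -- the class function
  have hf : ∃ f : Fin K → Fin K, ∀ a, a ≠ k → τ a ≠ a → τ (f a) ≠ f a ∧ v a ∈ Lf C τ v' (f a) := by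
    refine ⟨fun a => if H : a ≠ k ∧ τ a ≠ a then Classical.choose (h.cls a H.1 H.2) else a, ?_⟩
    intro a ha hta
    have H : a ≠ k ∧ τ a ≠ a := ⟨ha, hta⟩
    simp only [dif_pos H]
    exact Classical.choose_spec (h.cls a H.1 H.2)
  obtain ⟨f, hf⟩ := hf
  have hLf : ∀ i j, (i = j ∨ i = τ j) → Lf C τ v' i = Lf C τ v' j := by
    intro i j hij
    rcases hij with e | e
    · rw [e]
    · rw [e]; exact hd.2.1 j
  have h3 : ∀ a, a ≠ k → τ a ≠ a → τ (f a) ≠ f a := fun a ha hta => (hf a ha hta).1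
  have h4 : ∀ a b, a ≠ k → b ≠ k → τ a ≠ a → τ b ≠ b → a ≠ b →
      (f b = f a ∨ f b = τ (f a)) → b = τ a := by
    intro a b ha hb hta htb hab hfab
    have m1 := (hf a ha hta).2
    have m2 : v b ∈ Lf C τ v' (f a) := by
      rw [← hLf (f b) (f a) hfab]; exact (hf b hb htb).2
    obtain ⟨q1, _, q3, _⟩ := hTWP n C Γ K c τ D v v' h.tv h.tv' (f a) a b hab m1 m2
    by_contra hne
    have q4 := D.toTau.pair (f a) q1
    have q5 := D.toTau.leaf a hta b hab.symm hne
    rw [q3] at q5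
    omega
  obtain ⟨c1, c2⟩ := hCNT K τ f k hinv hk h3 h4
  have hτk : τ k ≠ k := hk
  have hττk : τ (τ k) ≠ τ k := by
    rw [hinv]; exact hk.symm
  have hfk := hf (τ k) hτk hττk
  refine ⟨f (τ k), ⟨hfk.1, hk, hfk.2, ?_, ?_⟩⟩
  · intro j hj1 hj2 hj3
    obtain ⟨a, ha1, ha2, ha3⟩ := c2 j hj3
    have ha4 : a ≠ τ k := by
      intro e
      rw [e] at ha3
      rcases ha3 with e' | e'
      · exact hj1 e'.symm
      · apply hj2
        rw [e', hinv]
    have ha5 : f a = j ∨ j = τ (f a) := by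
      rcases ha3 with e' | e'
      · exact Or.inl e'
      · right; rw [e', hinv]
    have e1 : Lf C τ v' (f a) = Lf C τ v' j := by
      rcases ha3 with e' | e'
      · rw [e']
      · rw [e']; exact hd.2.1 j
    have hta : τ a ≠ k := by
      intro e
      apply ha4
      rw [← e, hinv]
    have htta : τ (τ a) ≠ τ a := by
      rw [hinv]; exact ha2.symm
    have e2 : Lf C τ v' (f (τ a)) = Lf C τ v' j := by
      rw [hLf (f (τ a)) (f a) (c1 a ha1 ha4 ha2), e1]
    have m1 : v a ∈ Lf C τ v' j := by rw [← e1]; exact (hf a ha1 ha2).2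
    have m2 : v (τ a) ∈ Lf C τ v' j := by rw [← e2]; exact (hf (τ a) hta htta).2
    obtain ⟨_, q2, _, _⟩ := hTWP n C Γ K c τ D v v' h.tv h.tv' j a (τ a) ha2.symm m1 m2
    refine ⟨a, ha1, ha4, ha2, ?_⟩
    rw [← q2]
    unfold Lf
    rw [if_neg ha2]
  · intro m hm1 hm2
    by_cases hm3 : τ m = m
    · obtain ⟨r, hr, hvm⟩ := h.lab m hm1 hm3
      refine ⟨m, ?_, ?_, ?_⟩
      · intro e
        apply hfk.1
        rw [← e]; exact hm3
      · intro e
        apply hfk.1
        have e1 : τ m = f (τ k) := by rw [e, hinv]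
        exact e.symm.trans (hm3.symm.trans e1)
      · have e1 : v m = r⁻¹ • v' m := by
          rw [hvm, smul_smul, inv_mul_cancel₀ hr.ne', one_smul]
        rw [e1]
        exact Submodule.smul_mem _ _ (hd.1 m)
    · refine ⟨f m, ?_, ?_, (hf m hm1 hm3).2⟩
      · intro e
        have := h4 (τ k) m hτk hm1 hττk hm3 (Ne.symm hm2) (Or.inl e)
        rw [hinv] at this
        exact hm1 this
      · intro e
        have := h4 (τ k) m hτk hm1 hττk hm3 (Ne.symm hm2) (Or.inr e)
        rw [hinv] at this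
        exact hm1 this

end Pool.Agent.NTW.H47
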